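import Mathlib
import Pool.Agent.H925R3.RR.Stubs

/-! PTR: `p`-adic closeness of `3P`, `p ≠ 2, 3` -/

set_option autoImplicit false

namespace H19R2.RR

open Pool.Agent.H925R3.DC Pool.Agent.H925R3.DD Pool.Agent.H925R3.RR

/-- numerator and denominator are coprime -/
theorem val_or (p : ℕ) [hp : Fact p.Prime] (q : ℚ) :
    padicValInt p q.num = 0 ∨ padicValNat p q.den = 0 := by
  by_contra h
  push Not at h
  obtain ⟨h1, h2⟩ := h
  have d1 : p ∣ q.num.natAbs := by
    unfold padicValInt at h1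
    exact dvd_of_one_le_padicValNat (Nat.one_le_iff_ne_zero.2 h1)
  have d2 : p ∣ q.den := dvd_of_one_le_padicValNat (Nat.one_le_iff_ne_zero.2 h2)
  have := Nat.dvd_gcd d1 d2
  rw [q.reduced] at this
  exact hp.out.one_lt.ne' (Nat.dvd_one.1 this)

theorem val_den (p : ℕ) [hp : Fact p.Prime] (x q : ℚ) (hx : p ∣ x.den)
    (h : padicValRat p q = padicValRat p x) : padicValNat p q.den = padicValNat p x.den := by
  have h1 : padicValNat p x.den ≠ 0 := by
    have := one_le_padicValNat_of_dvd x.den_nz hx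
    omega
  have h2 := (val_or p x).resolve_right h1
  have h3 := val_or p q
  have h4 : ((padicValInt p q.num : ℕ) : ℤ) - ((padicValNat p q.den : ℕ) : ℤ) =
      ((padicValInt p x.num : ℕ) : ℤ) - ((padicValNat p x.den : ℕ) : ℤ) := h
  rw [h2] at h4
  generalize padicValInt p q.num = u at h3 h4
  omega

theorem norm_gt (p : ℕ) [hp : Fact p.Prime] (x : ℚ) (hx : p ∣ x.den) :
    x ≠ 0 ∧ 1 < padicNorm p x := by
  have h1 : padicValNat p x.den ≠ 0 := by
    have := one_le_padicValNat_of_dvd x.den_nz hx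
    omega
  have h2 := (val_or p x).resolve_right h1
  have hx0 : x ≠ 0 := by
    rintro rfl
    simp at h1
  refine ⟨hx0, ?_⟩
  rw [padicNorm.eq_zpow_of_nonzero hx0]
  have h3 : -padicValRat p x = (padicValNat p x.den : ℤ) := by
    unfold padicValRat
    rw [h2]
    simp
  rw [h3, zpow_natCast]
  exact one_lt_pow₀ (by exact_mod_cast hp.out.one_lt) h1

theorem norm_le (p : ℕ) [hp : Fact p.Prime] (z : ℤ) : padicNorm p (z : ℚ) ≤ 1 :=
  padicNorm.of_int z

theorem add_lt (p : ℕ) [hp : Fact p.Prime] (q r : ℚ) (c : ℚ) (h1 : padicNorm p q ≤ c)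
    (h2 : padicNorm p r ≤ c) : padicNorm p (q + r) ≤ c :=
  (padicNorm.nonarchimedean (p := p)).trans (max_le h1 h2)

/-- the larger term dominates -/
theorem dom (p : ℕ) [hp : Fact p.Prime] (q r : ℚ) (h : padicNorm p r < padicNorm p q) :
    padicNorm p (q + r) = padicNorm p q := by
  rw [padicNorm.add_eq_max_of_ne h.ne', max_eq_left h.le]

theorem ptr : Pool.Agent.H925R3.RR.PTR := by
  intro hFSP hFDB _ a b p hp hp2 hp3 P hP hPP hPPP hdvd
  haveI : Fact p.Prime := ⟨hp⟩
  obtain ⟨x, hx⟩ : ∃ x : ℚ, x = xc P := ⟨_, rfl⟩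
  obtain ⟨x1, hx1⟩ : ∃ x1 : ℚ, x1 = xc (P + P) := ⟨_, rfl⟩
  obtain ⟨x3, hx3⟩ : ∃ x3 : ℚ, x3 = xc (P + P + P) := ⟨_, rfl⟩
  rw [← hx] at hdvd
  rw [← hx, ← hx3]
  obtain ⟨hx0, hX⟩ := norm_gt p x hdvd
  obtain ⟨hD0, hdb⟩ := hFDB ℚ (a : ℚ) (b : ℚ) P hP hPP
  rw [← hx] at hD0 hdb
  rw [← hx1] at hdb
  have hXpos : 0 < padicNorm p x := by linarith
  have na : padicNorm p (a : ℚ) ≤ 1 := norm_le p a
  have nb : padicNorm p (b : ℚ) ≤ 1 := norm_le p b
  have n0a := padicNorm.nonneg (p := p) (a : ℚ)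
  have n0b := padicNorm.nonneg (p := p) (b : ℚ)
  have c2 : Nat.Coprime p 2 := (Nat.coprime_primes hp Nat.prime_two).2 hp2
  have c3 : Nat.Coprime p 3 := (Nat.coprime_primes hp Nat.prime_three).2 hp3
  have n2 : padicNorm p (2 : ℚ) = 1 := by
    have := (padicNorm.nat_eq_one_iff (p := p) 2).2 (fun h => by
      have := (Nat.Prime.coprime_iff_not_dvd hp).1 c2
      exact this h)
    simpa using this
  have n3 : padicNorm p (3 : ℚ) = 1 := by
    have := (padicNorm.nat_eq_one_iff (p := p) 3).2 (fun h => by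
      have := (Nat.Prime.coprime_iff_not_dvd hp).1 c3
      exact this h)
    simpa using this
  have n4 : padicNorm p (4 : ℚ) = 1 := by
    rw [show (4 : ℚ) = 2 * 2 by norm_num, padicNorm.mul, n2, one_mul]
  have X1 : 1 ≤ padicNorm p x := hX.le
  have nD : padicNorm p (x ^ 3 + (a * x + b)) = padicNorm p x ^ 3 := by
    have h1 : padicNorm p (x ^ 3) = padicNorm p x ^ 3 := by
      rw [pow_succ, pow_succ, pow_one, padicNorm.mul, padicNorm.mul]; ring
    rw [dom, h1]
    rw [h1]
    refine (add_lt p (a * x) b (padicNorm p x) ?_ ?_).trans_lt ?_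
    · rw [padicNorm.mul]
      nlinarith
    · linarith
    · nlinarith [mul_pos hXpos hXpos]
  have nE : padicNorm p ((4 * x1 - x) * (x ^ 3 + (a * x + b))) ≤ padicNorm p x ^ 2 := by
    have e1 : (4 * x1 - x) * (x ^ 3 + (a * x + b)) =
        (-(3 : ℤ) * a : ℤ) * x ^ 2 + ((-(9 : ℤ) * b : ℤ) * x + (a ^ 2 : ℤ)) := by
      push_cast
      linear_combination hdb
    rw [e1]
    have hsq : padicNorm p (x ^ 2) = padicNorm p x ^ 2 := by
      rw [pow_two, padicNorm.mul, pow_two]
    refine add_lt p _ _ _ ?_ (add_lt p _ _ _ ?_ ?_)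
    · rw [padicNorm.mul, hsq]
      have := norm_le p (-(3 : ℤ) * a)
      have h0 := padicNorm.nonneg (p := p) ((-(3 : ℤ) * a : ℤ) : ℚ)
      nlinarith [sq_nonneg (padicNorm p x)]
    · rw [padicNorm.mul]
      have := norm_le p (-(9 : ℤ) * b)
      have h0 := padicNorm.nonneg (p := p) ((-(9 : ℤ) * b : ℤ) : ℚ)
      nlinarith
    · have := norm_le p (a ^ 2)
      nlinarith
  have nF : padicNorm p (4 * x1 - x) < padicNorm p x := by
    rw [padicNorm.mul, nD] at nE
    by_contra hc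
    push Not at hc
    have h1 : padicNorm p x * padicNorm p x ^ 3 ≤ padicNorm p (4 * x1 - x) * padicNorm p x ^ 3 :=
      mul_le_mul_of_nonneg_right hc (by positivity)
    have h2 : padicNorm p x ^ 2 < padicNorm p x * padicNorm p x ^ 3 := by
      have : padicNorm p x * padicNorm p x ^ 3 = padicNorm p x ^ 2 * padicNorm p x ^ 2 := by ring
      rw [this]
      have h3 : 1 < padicNorm p x ^ 2 := one_lt_pow₀ hX (by norm_num)
      have h4 : 0 < padicNorm p x ^ 2 := by positivity
      nlinarith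
    linarith
  have nx1 : padicNorm p x1 = padicNorm p x := by
    have h1 : padicNorm p (x + (4 * x1 - x)) = padicNorm p x := dom p _ _ nF
    rw [show x + (4 * x1 - x) = 4 * x1 by ring, padicNorm.mul, n4, one_mul] at h1
    exact h1
  have nd : padicNorm p (x1 - x) = padicNorm p x := by
    have h0 : padicNorm p (-3 * x) = padicNorm p x := by
      rw [padicNorm.mul, padicNorm.neg, n3, one_mul]
    have h1 : padicNorm p (-3 * x + (4 * x1 - x)) = padicNorm p (-3 * x) :=
      dom p _ _ (by rw [h0]; exact nF)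
    rw [show -3 * x + (4 * x1 - x) = 4 * (x1 - x) by ring, padicNorm.mul, n4, one_mul, h0] at h1
    exact h1
  have hne : x1 ≠ x := by
    intro h
    rw [h, sub_self, padicNorm.zero] at nd
    linarith
  obtain ⟨-, -, -, hs⟩ := hFSP ℚ (a : ℚ) (b : ℚ) (P + P) P hPP hP (by rw [← hx, ← hx1]; exact hne)
  rw [add_sub_cancel_right, ← hx, ← hx1, ← hx3] at hs
  have nR : padicNorm p ((x1 * x - a) ^ 2 + -(4 * b * (x1 + x))) = padicNorm p x ^ 4 := by
    have h1 : padicNorm p (x1 * x) = padicNorm p x ^ 2 := by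
      rw [padicNorm.mul, nx1, pow_two]
    have h2 : padicNorm p (x1 * x + -(a : ℚ)) = padicNorm p x ^ 2 := by
      rw [dom p _ _ (by
        rw [h1, padicNorm.neg]
        exact lt_of_le_of_lt na (one_lt_pow₀ hX (by norm_num))), h1]
    have h3 : padicNorm p ((x1 * x - a) ^ 2) = padicNorm p x ^ 4 := by
      rw [sub_eq_add_neg, pow_two, padicNorm.mul, h2]
      ring
    rw [dom p _ _ ?_, h3]
    rw [h3, padicNorm.neg, padicNorm.mul, padicNorm.mul, n4, one_mul]
    have h4 : padicNorm p (x1 + x) ≤ padicNorm p x := add_lt p _ _ _ nx1.le le_rfl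
    have h5 : padicNorm p x < padicNorm p x ^ 4 := by
      have := pow_lt_pow_right₀ hX (by norm_num : 1 < 4)
      rwa [pow_one] at this
    have h6 : padicNorm p (b : ℚ) * padicNorm p (x1 + x) ≤ padicNorm p x := by
      have h7 := padicNorm.nonneg (p := p) (x1 + x)
      nlinarith
    linarith
  have nx3 : padicNorm p x3 = padicNorm p x := by
    have h1 : padicNorm p (x3 * x * (x1 - x) ^ 2) = padicNorm p x ^ 4 := by
      rw [hs, sub_eq_add_neg ((x1 * x - (a : ℚ)) ^ 2)]
      exact nR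
    rw [pow_two, padicNorm.mul, padicNorm.mul, padicNorm.mul, nd] at h1
    have h2 : padicNorm p x3 * padicNorm p x ^ 3 = padicNorm p x * padicNorm p x ^ 3 := by
      linear_combination h1
    exact mul_right_cancel₀ (pow_ne_zero 3 hXpos.ne') h2
  have hx30 : x3 ≠ 0 := by
    rintro rfl
    rw [padicNorm.zero] at nx3
    linarith
  refine val_den p x x3 hdvd ?_
  rw [padicNorm.eq_zpow_of_nonzero hx30, padicNorm.eq_zpow_of_nonzero hx0] at nx3
  have h1 : (1 : ℚ) < p := by exact_mod_cast hp.one_lt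
  have h2 := zpow_right_injective₀ (by linarith : (0 : ℚ) < p) h1.ne' nx3
  simpa using h2

end H19R2.RR
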